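import Pool.Agent.Helper18.DiagDefs
import Pool.Agent.Helper18.DiagFinal

open Pool.Agent.Helper18.DiagDefs

/-- The maximal number of mixed diagonals of a simple `n`-gon, `n ≥ 4`: it is
`⌊(n - 3)² / 2⌋` if every vertex is a genuine corner, and `(n - 2)(n - 3) / 2` if straight angles
at vertices are allowed. -/
theorem Pool.Agent.Results.MP_773b78_co.MixedDiagonals.result (n : ℕ) (hn : 4 ≤ n) :
    IsGreatest {m : ℕ | ∃ v : Fin n → Plane, IsSimplePolygon v ∧ GenuineCorners v ∧
      mixedCount v = m} ((n - 3) ^ 2 / 2) ∧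
    IsGreatest {m : ℕ | ∃ v : Fin n → Plane, IsSimplePolygon v ∧ mixedCount v = m}
      ((n - 2) * (n - 3) / 2) :=
  Pool.Agent.Helper18.Diag.main n hn
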